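import Pool.Agent.Helper32.BdNoncyclic
import Pool.Agent.Helper32.BdSanity

/-! Disproof of the bidisk analogue of the Brown-Shields conjecture: the function
`(2 - z - w)^4 exp(-1/(2 - z - w))` lies in the Dirichlet space of the bidisk, is outer, its
boundary zero set is the single point `(1, 1)`, and it is not cyclic. -/

namespace Pool.Agent.Results.MP_dad4ef_an.OuterNotCyclic

open MeasureTheory Filter Topology Set Metric Pool.Agent.Helper32.Bd

lemma squareMeasure_eq : squareMeasure = μ2 := by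
  unfold squareMeasure μ2 μ1
  rw [Measure.prod_restrict]; rfl

lemma torusPt_eq (θ : ℝ × ℝ) : torusPt θ = (e θ.1, e θ.2) := rfl

lemma fB_contAt {z : ℂ × ℂ} (hz : 2 - z.1 - z.2 ≠ 0) : ContinuousAt fB z := by
  unfold fB
  have h1 : ContinuousAt (fun z : ℂ × ℂ => 2 - z.1 - z.2) z := by fun_prop
  exact (h1.pow 4).mul (h1.inv₀ hz).neg.cexp

lemma radial {z : ℂ × ℂ} (hz : 2 - z.1 - z.2 ≠ 0) : HasRadialLimit fB z (fB z) := by
  unfold HasRadialLimit
  have h3 : Tendsto (fun r : ℝ => ((r:ℂ) * z.1, (r:ℂ) * z.2)) (𝓝[<] 1) (𝓝 z) := by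
    have h4 : Continuous fun r : ℝ => ((r:ℂ) * z.1, (r:ℂ) * z.2) := by fun_prop
    have h5 := h4.tendsto 1
    simp only [Complex.ofReal_one, one_mul] at h5
    exact h5.mono_left nhdsWithin_le_nhds
  exact (fB_contAt hz).tendsto.comp h3

lemma fB_ne {z : ℂ × ℂ} (hz : 2 - z.1 - z.2 ≠ 0) : fB z ≠ 0 :=
  mul_ne_zero (pow_ne_zero 4 hz) (Complex.exp_ne_zero _)

lemma log_fB {z : ℂ × ℂ} (hz : 2 - z.1 - z.2 ≠ 0) : Real.log ‖fB z‖ = (H z).re := by
  unfold fB H
  rw [norm_mul, Real.log_mul (by simpa using hz) (by simp), norm_pow, Real.log_pow,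
    Complex.norm_exp, Real.log_exp, Complex.sub_re]
  have h1 : (4 * Complex.log (2 - z.1 - z.2)).re = 4 * Real.log ‖2 - z.1 - z.2‖ := by
    rw [← Complex.log_re]; simp
  rw [h1, Complex.neg_re]; push_cast; ring

theorem fB_outer : IsOuter fB := by
  refine ⟨fun θ => fB (torusPt θ), ?_, ?_, ?_, ?_⟩
  · rw [squareMeasure_eq]
    filter_upwards [boundary_ne] with θ hθ using radial hθ
  · rw [squareMeasure_eq]
    filter_upwards [boundary_ne] with θ hθ using fB_ne hθ
  · rw [squareMeasure_eq]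
    have h1 := (H_poisson 0 0 (by simp) (by simp)).1.re
    refine h1.congr ?_
    filter_upwards [boundary_ne] with θ hθ
    exact (log_fB hθ).symm
  · intro z hz hw
    have hpos := two_sub_re_pos hz hw.le
    have hne : 2 - z.1 - z.2 ≠ 0 := by
      intro h0; rw [h0] at hpos; simp at hpos
    refine ⟨fB_ne hne, ?_⟩
    rw [log_fB hne, squareMeasure_eq]
    obtain ⟨hint, hP⟩ := H_poisson z.1 z.2 hz hw
    have h1 : H z = H (z.1, z.2) := rfl
    rw [h1, hP, Complex.smul_re, smul_eq_mul]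
    congr 1
    have hi : Integrable (fun p : ℝ × ℝ => (poissonKernel 0 z.1 (e p.1) *
        poissonKernel 0 z.2 (e p.2)) • H (e p.1, e p.2)) μ2 := by
      obtain ⟨A, hA0, hA⟩ := poisson_bounded z.1 hz
      obtain ⟨B, hB0, hB⟩ := poisson_bounded z.2 hw
      refine (hint.norm.const_mul (A * B)).mono' ?_ ?_
      · have ha := (poisson_cont z.1 hz).comp (continuous_fst (X := ℝ) (Y := ℝ))
        have hb := (poisson_cont z.2 hw).comp (continuous_snd (X := ℝ) (Y := ℝ))
        exact (ha.mul hb).aestronglyMeasurable.smul hint.aestronglyMeasurable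
      · filter_upwards with p
        rw [norm_smul, norm_mul, Real.norm_eq_abs, Real.norm_eq_abs]
        exact mul_le_mul_of_nonneg_right (mul_le_mul (hA _) (hB _) (abs_nonneg _) hA0)
          (norm_nonneg _)
    rw [← Complex.reCLM_apply, ← ContinuousLinearMap.integral_comp_comm _ hi]
    refine integral_congr_ae ?_
    filter_upwards [boundary_ne] with θ hθ
    rw [Complex.reCLM_apply, Complex.smul_re, log_fB hθ, smul_eq_mul, torusPt_eq]
    ring

lemma zeroSet_fB : zeroSet fB = {((1 : ℂ), (1 : ℂ))} := by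
  ext ζ
  simp only [zeroSet, torus, Set.mem_ofPred_eq, mem_singleton_iff]
  constructor
  · rintro ⟨⟨h1, h2⟩, h3⟩
    by_contra hne
    have hz : 2 - ζ.1 - ζ.2 ≠ 0 := by
      intro h4
      apply hne
      have ha := Complex.re_le_norm ζ.1
      have hb := Complex.re_le_norm ζ.2
      have hre : (2 - ζ.1 - ζ.2).re = 0 := by rw [h4]; simp
      have hre' : (2 - ζ.1 - ζ.2).re = 2 - ζ.1.re - ζ.2.re := by simp
      have hone : ∀ u : ℂ, ‖u‖ = 1 → u.re = 1 → u = 1 := by
        intro u hu hu2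
        have h5 : Complex.normSq u = 1 := by rw [Complex.normSq_eq_norm_sq, hu]; norm_num
        rw [Complex.normSq_apply, hu2] at h5
        have h6 : u.im = 0 := by nlinarith [sq_nonneg u.im]
        exact Complex.ext (by simpa using hu2) (by simpa using h6)
      exact Prod.ext (hone _ h1 (by linarith)) (hone _ h2 (by linarith))
    exact fB_ne hz (tendsto_nhds_unique (radial hz) h3)
  · rintro rfl
    refine ⟨⟨by simp, by simp⟩, ?_⟩
    unfold HasRadialLimit
    have h1 : Tendsto (fun r : ℝ => ‖(2 - 2 * (r:ℂ))‖ ^ 4) (𝓝[<] 1) (𝓝 0) := by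
      have h2 : Continuous fun r : ℝ => ‖(2 - 2 * (r:ℂ))‖ ^ 4 := by fun_prop
      have h3 := h2.tendsto 1
      simp only [Complex.ofReal_one, mul_one, sub_self, norm_zero] at h3
      norm_num at h3
      exact h3.mono_left nhdsWithin_le_nhds
    refine squeeze_zero_norm' ?_ h1
    filter_upwards [Ioo_mem_nhdsLT (zero_lt_one' ℝ)] with r hr
    rw [fB_eq]
    have h4 : (((r:ℂ) * 1 + r * 1) / 2) = r := by ring
    simp only [h4]
    unfold phi
    rw [norm_mul, norm_pow]
    refine mul_le_of_le_one_right (by positivity) (exp_le_one ?_)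
    apply phi_re
    rw [Complex.norm_real, Real.norm_of_nonneg hr.1.le]
    exact hr.2.le

lemma logCapZero_singleton (a : ℂ × ℂ) : LogCapZero {a} := by
  intro μ hμ hE
  have h1 : ∀ᵐ ζ ∂μ, ζ = a := by
    rw [ae_iff]
    exact hE
  unfold energy
  have h2 : ∫⁻ ζ, ∫⁻ η, logKer ζ.1 η.1 * logKer ζ.2 η.2 ∂μ ∂μ = ∫⁻ _, ⊤ ∂μ := by
    refine lintegral_congr_ae ?_
    filter_upwards [h1] with ζ hζ
    subst hζ
    have h3 : ∫⁻ η, logKer ζ.1 η.1 * logKer ζ.2 η.2 ∂μ = ∫⁻ _, ⊤ ∂μ := by
      refine lintegral_congr_ae ?_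
      filter_upwards [h1] with η hη
      subst hη
      simp [logKer]
    rw [h3]; simp
  rw [h2]; simp

/-- The bidisk analogue of the Brown-Shields conjecture fails: there is an outer function in the
Dirichlet space of the bidisk whose boundary zero set is a single point (hence of logarithmic
capacity zero) and which is not cyclic. -/
theorem result :
    ∃ f : ℂ × ℂ → ℂ, InDirichlet f ∧ IsOuter f ∧
      zeroSet f = {((1 : ℂ), (1 : ℂ))} ∧ LogCapZero (zeroSet f) ∧ ¬ Cyclic f :=
  ⟨fB, fB_inDirichlet, fB_outer, zeroSet_fB, by rw [zeroSet_fB]; exact logCapZero_singleton _,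
    fB_not_cyclic⟩

end Pool.Agent.Results.MP_dad4ef_an.OuterNotCyclic
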